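import Pool.Agent.Results.MP_152764_nt.UpToFive
import Pool.Agent.U513.AP.Sparse

/-!
# The `5x+1` map near integral polynomials at simultaneous approximations

The starting file bounds the number of the `n < N` with a total stopping time less than `5 log n`. Here: for all points `α` outside
of a set of small Hausdorff dimension, NONE of the natural numbers near integral polynomials at the approximations of `α` with a
large denominator has such a stopping time.
-/

set_option autoImplicit false

open Finset

namespace Pool.Agent.Results.MP_152764_nt.Approximations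

open Pool.Agent.U513.AP

/-- The property the orbit of `n` under the `5x+1` map does not reach `1` in fewer than `5 log n` steps holds at approximations
outside of exceptional sets of exponent `0.999`. -/
theorem result : AtApproximations (ι := Unit) 0.999
    (fun _ n => ∀ k : ℕ, 1 ≤ k → (fun m : ℕ => if m % 2 = 0 then m / 2 else (5 * m + 1) / 2)^[k] n = 1 →
      5 * Real.log n ≤ (k : ℝ)) := by
  classical
  have h := UpToFive.result.2
  have key := sparse_law_pow (ι := Unit) (c := 0.001) (by norm_num)
    (fun _ n => ∀ k : ℕ, 1 ≤ k → (fun m : ℕ => if m % 2 = 0 then m / 2 else (5 * m + 1) / 2)^[k] n = 1 →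
      5 * Real.log n ≤ (k : ℝ)) fun _ => ⟨22700 * 2 ^ (0.999 : ℝ), 1, fun X hX => ?_⟩
  · rwa [show (1 : ℝ) - 0.001 = 0.999 by norm_num] at key
  · have hX1 : (1 : ℝ) ≤ X := by exact_mod_cast hX
    have h1 := h (X + 1) (by omega)
    have hfin : {n : ℕ | n < X + 1 ∧ ∃ k : ℕ, 1 ≤ k ∧
        (fun m : ℕ => if m % 2 = 0 then m / 2 else (5 * m + 1) / 2)^[k] n = 1 ∧ (k : ℝ) < 5 * Real.log n}.Finite :=
      (Set.finite_Iio (X + 1)).subset fun n hn => hn.1
    refine (Nat.cast_le.2 (Set.ncard_le_ncard ?_ hfin)).trans (h1.trans ?_)
    · rintro n ⟨_, hn2, hn3⟩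
      push Not at hn3
      obtain ⟨k, hk1, hk2, hk3⟩ := hn3
      exact ⟨by omega, k, hk1, hk2, hk3⟩
    · rw [show (1 : ℝ) - 0.001 = 0.999 by norm_num, mul_assoc, ← Real.mul_rpow (by norm_num) (by linarith)]
      refine mul_le_mul_of_nonneg_left (Real.rpow_le_rpow (by positivity) ?_ (by norm_num)) (by norm_num)
      push_cast
      linarith

end Pool.Agent.Results.MP_152764_nt.Approximations
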